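import Mathlib

/-!
# MP_b8636a_al : the two length-five unitriangular products differ for `A₁` over `ℤ`

In `SL₂(ℤ)`, the simply connected Chevalley group of type `A₁` over `ℤ`, the element
`L(10) U(10) L(10) U(10) L(10)` of `U⁻UU⁻UU⁻` is not in `UU⁻UU⁻U`, and
`U(10) L(10) U(10) L(10) U(10)` of `UU⁻UU⁻U` is not in `U⁻UU⁻UU⁻`.
-/

namespace Pool.Agent.Results.MP_b8636a_al.FiveFoldProductsDiffer

open Matrix
open scoped Pointwise

/-- `SL₂(ℤ)`. -/
abbrev G : Type := Matrix.SpecialLinearGroup (Fin 2) ℤ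

/-- The root unipotent `x_α(a)` for the positive root `α` of `A₁`. -/
def up (a : ℤ) : G := ⟨!![1, a; 0, 1], by simp [Matrix.det_fin_two]⟩

/-- The root unipotent `x_{-α}(a)` for the negative root `-α` of `A₁`. -/
def lo (a : ℤ) : G := ⟨!![1, 0; a, 1], by simp [Matrix.det_fin_two]⟩

/-- The group `U` generated by the positive root unipotents. -/
def U : Subgroup G := Subgroup.closure (Set.range up)

/-- The group `U⁻` generated by the negative root unipotents. -/
def Um : Subgroup G := Subgroup.closure (Set.range lo)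

theorem up_mul (a b : ℤ) : up a * up b = up (a + b) := by
  apply Subtype.ext
  show (!![1, a; 0, 1] * !![1, b; 0, 1] : Matrix (Fin 2) (Fin 2) ℤ) = !![1, a + b; 0, 1]
  simp [add_comm]

theorem lo_mul (a b : ℤ) : lo a * lo b = lo (a + b) := by
  apply Subtype.ext
  show (!![1, 0; a, 1] * !![1, 0; b, 1] : Matrix (Fin 2) (Fin 2) ℤ) = !![1, 0; a + b, 1]
  simp

theorem up_zero : up 0 = 1 := by
  apply Subtype.ext
  simp [up, Matrix.one_fin_two]

theorem lo_zero : lo 0 = 1 := by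
  apply Subtype.ext
  simp [lo, Matrix.one_fin_two]

theorem mem_U {g : G} : g ∈ U ↔ ∃ a, g = up a := by
  constructor
  · intro h
    induction h using Subgroup.closure_induction with
    | mem x hx => obtain ⟨a, rfl⟩ := hx; exact ⟨a, rfl⟩
    | one => exact ⟨0, up_zero.symm⟩
    | mul x y _ _ hx hy =>
      obtain ⟨a, rfl⟩ := hx
      obtain ⟨b, rfl⟩ := hy
      exact ⟨a + b, up_mul a b⟩
    | inv x _ hx =>
      obtain ⟨a, rfl⟩ := hx
      refine ⟨-a, ?_⟩
      rw [inv_eq_iff_mul_eq_one, up_mul, add_neg_cancel, up_zero]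
  · rintro ⟨a, rfl⟩
    exact Subgroup.subset_closure ⟨a, rfl⟩

theorem mem_Um {g : G} : g ∈ Um ↔ ∃ a, g = lo a := by
  constructor
  · intro h
    induction h using Subgroup.closure_induction with
    | mem x hx => obtain ⟨a, rfl⟩ := hx; exact ⟨a, rfl⟩
    | one => exact ⟨0, lo_zero.symm⟩
    | mul x y _ _ hx hy =>
      obtain ⟨a, rfl⟩ := hx
      obtain ⟨b, rfl⟩ := hy
      exact ⟨a + b, lo_mul a b⟩
    | inv x _ hx =>
      obtain ⟨a, rfl⟩ := hx
      refine ⟨-a, ?_⟩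
      rw [inv_eq_iff_mul_eq_one, lo_mul, add_neg_cancel, lo_zero]
  · rintro ⟨a, rfl⟩
    exact Subgroup.subset_closure ⟨a, rfl⟩

/-- The arithmetic core. -/
theorem arith_aux (b d x : ℤ) (k : ℤ) (hx : x = 10301 + 104030 * k)
    (h : 104030 = d + b * x) (hbd : |d| ≤ |b|) : False := by
  have hb0 : b ≠ 0 := by
    rintro rfl
    simp at hbd
    subst hbd
    simp at h
  have hx1 : 10301 ≤ |x| := by
    rcases le_or_gt 0 k with hk | hk
    · rw [abs_of_nonneg] <;> omega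
    · rw [abs_of_neg] <;> omega
  have h1 : |b| * |x| ≤ 104030 + |d| := by
    rw [← abs_mul]
    have : b * x = 104030 - d := by linarith
    rw [this]
    have := abs_sub (104030 : ℤ) d
    simpa using this
  have hb1 : 0 < |b| := abs_pos.2 hb0
  have hb2 : |b| ≤ 10 := by nlinarith
  have hd2 : |d| ≤ 10 := le_trans hbd hb2
  rw [abs_le] at hb2 hd2
  obtain ⟨hb3, hb4⟩ := hb2
  obtain ⟨hd3, hd4⟩ := hd2
  subst hx
  interval_cases b <;> omega

theorem arith (b c d k l : ℤ) (hr : 104030 = b + d + b * c * d)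
    (h1 : 1 + c * d = 10301 + 104030 * k) (h2 : 1 + c * b = 10301 + 104030 * l) : False := by
  rcases le_total |d| |b| with h | h
  · exact arith_aux b d (1 + c * d) k h1 (by linarith) h
  · exact arith_aux d b (1 + c * b) l h2 (by linarith) h

theorem not_mem_five (a b c d e : ℤ)
    (h : lo 10 * up 10 * lo 10 * up 10 * lo 10 = up a * lo b * up c * lo d * up e) : False := by
  have h1 : (!![1, 0; 10, 1] * !![1, 10; 0, 1] * !![1, 0; 10, 1] * !![1, 10; 0, 1] * !![1, 0; 10, 1] :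
      Matrix (Fin 2) (Fin 2) ℤ) =
      !![1, a; 0, 1] * !![1, 0; b, 1] * !![1, c; 0, 1] * !![1, 0; d, 1] * !![1, e; 0, 1] :=
    congrArg Subtype.val h
  simp only [Matrix.mul_fin_two] at h1
  have e00 := congrFun (congrFun h1 0) 0
  have e01 := congrFun (congrFun h1 0) 1
  have e10 := congrFun (congrFun h1 1) 0
  have e11 := congrFun (congrFun h1 1) 1
  simp at e00 e01 e10 e11
  apply arith b c d (-a) (-e)
  · linarith
  · linear_combination (-e00 + a * e10)
  · linear_combination (-e11 + e * e10)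

theorem not_mem_five' (a b c d e : ℤ)
    (h : up 10 * lo 10 * up 10 * lo 10 * up 10 = lo a * up b * lo c * up d * lo e) : False := by
  have h1 : (!![1, 10; 0, 1] * !![1, 0; 10, 1] * !![1, 10; 0, 1] * !![1, 0; 10, 1] * !![1, 10; 0, 1] :
      Matrix (Fin 2) (Fin 2) ℤ) =
      !![1, 0; a, 1] * !![1, b; 0, 1] * !![1, 0; c, 1] * !![1, d; 0, 1] * !![1, 0; e, 1] :=
    congrArg Subtype.val h
  simp only [Matrix.mul_fin_two] at h1
  have e00 := congrFun (congrFun h1 0) 0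
  have e01 := congrFun (congrFun h1 0) 1
  have e10 := congrFun (congrFun h1 1) 0
  have e11 := congrFun (congrFun h1 1) 1
  simp at e00 e01 e10 e11
  apply arith b c d (-a) (-e)
  · linarith
  · linear_combination (-e11 + a * e01)
  · linear_combination (-e00 + e * e01)

theorem mem_five {A B : Subgroup G} {g : G}
    (hg : g ∈ (A : Set G) * B * A * B * A) :
    ∃ a ∈ A, ∃ b ∈ B, ∃ c ∈ A, ∃ d ∈ B, ∃ e ∈ A, g = a * b * c * d * e := by
  obtain ⟨x, hx, e, he, rfl⟩ := Set.mem_mul.1 hg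
  obtain ⟨y, hy, d, hd, rfl⟩ := Set.mem_mul.1 hx
  obtain ⟨z, hz, c, hc, rfl⟩ := Set.mem_mul.1 hy
  obtain ⟨a, ha, b, hb, rfl⟩ := Set.mem_mul.1 hz
  exact ⟨a, ha, b, hb, c, hc, d, hd, e, he, rfl⟩

/-- **Disproof.** In `SL₂(ℤ)`, the simply connected Chevalley group of type `A₁` over `ℤ`, neither
of the sets `U⁻UU⁻UU⁻` and `UU⁻UU⁻U` contains the other; in particular they are different. -/
theorem result :
    (∃ g ∈ (Um : Set G) * U * Um * U * Um, g ∉ (U : Set G) * Um * U * Um * U) ∧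
    (∃ g ∈ (U : Set G) * Um * U * Um * U, g ∉ (Um : Set G) * U * Um * U * Um) ∧
    (Um : Set G) * U * Um * U * Um ≠ (U : Set G) * Um * U * Um * U := by
  have hU : ∀ a, up a ∈ (U : Set G) := fun a => mem_U.2 ⟨a, rfl⟩
  have hL : ∀ a, lo a ∈ (Um : Set G) := fun a => mem_Um.2 ⟨a, rfl⟩
  have h1 : lo 10 * up 10 * lo 10 * up 10 * lo 10 ∈ (Um : Set G) * U * Um * U * Um :=
    Set.mul_mem_mul (Set.mul_mem_mul (Set.mul_mem_mul (Set.mul_mem_mul (hL _) (hU _)) (hL _))
      (hU _)) (hL _)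
  have h2 : lo 10 * up 10 * lo 10 * up 10 * lo 10 ∉ (U : Set G) * Um * U * Um * U := by
    intro h
    obtain ⟨a, ha, b, hb, c, hc, d, hd, e, he, heq⟩ := mem_five h
    obtain ⟨a', rfl⟩ := mem_U.1 ha
    obtain ⟨b', rfl⟩ := mem_Um.1 hb
    obtain ⟨c', rfl⟩ := mem_U.1 hc
    obtain ⟨d', rfl⟩ := mem_Um.1 hd
    obtain ⟨e', rfl⟩ := mem_U.1 he
    exact not_mem_five a' b' c' d' e' heq
  have h3 : up 10 * lo 10 * up 10 * lo 10 * up 10 ∈ (U : Set G) * Um * U * Um * U :=
    Set.mul_mem_mul (Set.mul_mem_mul (Set.mul_mem_mul (Set.mul_mem_mul (hU _) (hL _)) (hU _))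
      (hL _)) (hU _)
  have h4 : up 10 * lo 10 * up 10 * lo 10 * up 10 ∉ (Um : Set G) * U * Um * U * Um := by
    intro h
    obtain ⟨a, ha, b, hb, c, hc, d, hd, e, he, heq⟩ := mem_five h
    obtain ⟨a', rfl⟩ := mem_Um.1 ha
    obtain ⟨b', rfl⟩ := mem_U.1 hb
    obtain ⟨c', rfl⟩ := mem_Um.1 hc
    obtain ⟨d', rfl⟩ := mem_U.1 hd
    obtain ⟨e', rfl⟩ := mem_Um.1 he
    exact not_mem_five' a' b' c' d' e' heq
  exact ⟨⟨_, h1, h2⟩, ⟨_, h3, h4⟩, fun h => h2 (h ▸ h1)⟩

end Pool.Agent.Results.MP_b8636a_al.FiveFoldProductsDiffer
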